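import Pool.Agent.Run7.h986.PM.Tests

/-!
# Mesoscopic confinement of directed polymers: the almost sure statement, second part (helper986)
-/

set_option autoImplicit false

open MeasureTheory ProbabilityTheory Filter Topology

namespace Pool.Agent.Run7.H986.PM

open TH967.DP (Step pos energy)
open Pool.Agent.N662.SE
open Pool.Agent.N700.SE.UPD hiding part_univ_pos

variable {d : ℕ}

/-- the tilt for an increment of length `l` -/
noncomputable def tilt (κ b' : ℝ) (n l : ℕ) : ℝ := κ * min 1 ((n : ℝ) ^ b' / Real.sqrt l)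

/-- the tilted drift -/
noncomputable def drift (h : Fin d → ℝ) (κ b' : ℝ) (n l : ℕ) (k : Fin d) (t : Bool) : Fin d → ℝ :=
  h + Pi.single k (if t then tilt κ b' n l else -tilt κ b' n l)

lemma tilt_nonneg {κ : ℝ} (hκ : 0 < κ) (b' : ℝ) (n l : ℕ) : 0 ≤ tilt κ b' n l := by
  apply mul_nonneg hκ.le
  apply le_min zero_le_one
  exact div_nonneg (Real.rpow_nonneg (Nat.cast_nonneg n) _) (Real.sqrt_nonneg _)

lemma tilt_le {κ : ℝ} (hκ : 0 < κ) (b' : ℝ) (n l : ℕ) : tilt κ b' n l ≤ κ := by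
  calc κ * min 1 ((n : ℝ) ^ b' / Real.sqrt l) ≤ κ * 1 :=
        mul_le_mul_of_nonneg_left (min_le_left _ _) hκ.le
    _ = κ := mul_one _

lemma drift_zero (h : Fin d → ℝ) (κ b' : ℝ) (n : ℕ) (k : Fin d) :
    drift h κ b' n 0 k true = h := by
  have e : tilt κ b' n 0 = 0 := by
    unfold tilt
    rw [Nat.cast_zero, Real.sqrt_zero, div_zero, min_eq_right zero_le_one, mul_zero]
  unfold drift
  rw [if_pos rfl, e, Pi.single_zero, add_zero]

lemma drift_mem {h : Fin d → ℝ} {U : Set (Fin d → ℝ)} {δ κ : ℝ} (hκ : 0 < κ) (hκδ : κ < δ)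
    (hball : Metric.ball h δ ⊆ U) (b' : ℝ) (n l : ℕ) (k : Fin d) (t : Bool) :
    drift h κ b' n l k t ∈ U := by
  apply hball
  unfold drift
  rw [Metric.mem_ball, dist_eq_norm, add_sub_cancel_left]
  refine lt_of_le_of_lt ?_ hκδ
  rw [pi_norm_le_iff_of_nonneg hκ.le]
  intro j
  have h1 := tilt_nonneg hκ b' n l
  have h2 := tilt_le hκ b' n l
  by_cases hjk : j = k
  · rw [hjk, Pi.single_eq_same, Real.norm_eq_abs]
    cases t
    · rw [if_neg (by decide), abs_neg, abs_of_nonneg h1]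
      exact h2
    · rw [if_pos rfl, abs_of_nonneg h1]
      exact h2
  · rw [Pi.single_eq_of_ne hjk, norm_zero]
    exact hκ.le

/-- the deterministic consequence of the tests -/
lemma conf_of_tests {Ω : Type} {ω : ℕ → (Fin d → ℤ) → Ω → ℝ} {β : ℝ} (hd : 1 ≤ d)
    {h v : Fin d → ℝ} {fr : (Fin d → ℝ) → ℕ → ℝ} {φ : (Fin d → ℝ) → ℝ} {C Er κ b' E : ℝ} {n : ℕ}
    (hn1 : 1 ≤ n) {x : Ω} {A : ℕ}
    (hfr : ∀ h n, fr h n ≤ n * φ h) (hlow : n * φ h ≤ fr h n + Er)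
    (hcurv : ∀ (k : Fin d) (s : ℝ), |s| ≤ 1 →
      φ (h + Pi.single k s) ≤ φ h + s * v k + C * s ^ 2)
    (hκ0 : 0 < κ) (hκ1 : κ ≤ 1) (hκC : C * κ ≤ 1 / 2)
    (key : ∀ (m' : ℕ) (z' : Fin d → ℤ) (j l : ℕ) (k : Fin d) (t : Bool),
      m' ≤ n ^ A + n → (∀ q, |z' q| ≤ ((n ^ A + n : ℕ) : ℤ)) → j ≤ n → l ≤ n →
      |lw ω β (drift h κ b' n l k t) m' z' j x - fr (drift h κ b' n l k t) j| < E)
    (m : ℕ) (z : Fin d → ℤ) (hm : m ≤ n ^ A) (hz : ∀ k, |z k| ≤ (n : ℤ) ^ A) :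
    1 - 2 * d * (n + 1) ^ 2 *
      Real.exp (-(κ / 2 * ((n : ℝ) ^ b') ^ 2) + 4 * E + Er) ≤
      prob β h (fun i y => ω (m + i) (z + y) x) n
        {w | ∀ i j : ℕ, i ≤ j → j ≤ n → ∀ k,
        |((pos w j k : ℝ) - pos w i k) - ((j : ℝ) - i) * v k| ≤
          (1 + ∑ k, |v k|) * (n : ℝ) ^ b' * Real.sqrt ((j : ℝ) - i)} := by
  have hnp : (0 : ℝ) < n := by exact_mod_cast hn1
  have key0 : ∀ (m' : ℕ) (z' : Fin d → ℤ) (j : ℕ), m' ≤ n ^ A + n →
      (∀ q, |z' q| ≤ ((n ^ A + n : ℕ) : ℤ)) → j ≤ n →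
      |lw ω β h m' z' j x - fr h j| < E := by
    intro m' z' j hm' hz' hj
    have h1 := key m' z' j 0 ⟨0, hd⟩ true hm' hz' hj (Nat.zero_le _)
    rwa [drift_zero] at h1
  have hLn : ((n ^ A + n : ℕ) : ℤ) = (n : ℤ) ^ A + n := by push_cast; ring
  have hmL : ∀ i ≤ n, m + i ≤ n ^ A + n := fun i hi => Nat.add_le_add hm hi
  have hzL : ∀ z' : Fin d → ℤ, (∀ q, |z' q| ≤ (n : ℤ)) → ∀ q,
      |(z + z') q| ≤ ((n ^ A + n : ℕ) : ℤ) := by
    intro z' hz' q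
    rw [hLn, Pi.add_apply]
    exact (abs_add_le _ _).trans (add_le_add (hz q) (hz' q))
  have hzL0 : ∀ q, |z q| ≤ ((n ^ A + n : ℕ) : ℤ) := by
    intro q
    rw [hLn]
    have h1 := hz q
    have h0 : (0 : ℤ) ≤ n := Int.natCast_nonneg n
    linarith
  have hmL0 : m ≤ n ^ A + n := hm.trans (Nat.le_add_right _ _)
  have hG : 0 < (n : ℝ) ^ b' := Real.rpow_pos_of_pos hnp _
  have hKk : ∀ k, 1 + |v k| ≤ 1 + ∑ k, |v k| := by
    intro k
    have h2 : |v k| ≤ ∑ k, |v k| :=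
      Finset.single_le_sum (f := fun k => |v k|) (fun _ _ => abs_nonneg _) (Finset.mem_univ k)
    linarith
  refine det2 hd hfr hlow hcurv hκ0 hκ1 hκC hG hKk (tilt κ b' n) (fun l => rfl) ?_ ?_ ?_ ?_
  · have h1 := (abs_lt.1 (key0 m z n hmL0 hzL0 le_rfl)).1
    unfold lw at h1
    linarith
  · intro i hi
    have h1 := (abs_lt.1 (key0 m z i hmL0 hzL0 hi)).2
    unfold lw at h1
    linarith
  · intro i l hil z' hz' k s hs
    have hin : i ≤ n := le_trans (Nat.le_add_right _ _) hil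
    have hln : l ≤ n := le_trans (Nat.le_add_left _ _) hil
    have e : (fun (t : ℕ) (y : Fin d → ℤ) => ω (m + (i + t)) (z + (z' + y)) x) =
        fun t y => ω (m + i + t) (z + z' + y) x := by
      funext t y
      rw [add_assoc, add_assoc]
    rw [e]
    rcases hs with rfl | rfl
    · have h1 := (abs_lt.1 (key (m + i) (z + z') l l k true (hmL i hin) (hzL z' hz')
        hln hln)).2
      unfold lw drift at h1
      rw [if_pos rfl] at h1
      linarith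
    · have h1 := (abs_lt.1 (key (m + i) (z + z') l l k false (hmL i hin) (hzL z' hz')
        hln hln)).2
      unfold lw drift at h1
      rw [if_neg (by decide)] at h1
      linarith
  · intro j hj z' hz'
    have e : (fun (t : ℕ) (y : Fin d → ℤ) => ω (m + (j + t)) (z + (z' + y)) x) =
        fun t y => ω (m + j + t) (z + z' + y) x := by
      funext t y
      rw [add_assoc, add_assoc]
    rw [e]
    have h1 := (abs_lt.1 (key0 (m + j) (z + z') (n - j) (hmL j hj) (hzL z' hz')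
      (Nat.sub_le _ _))).2
    unfold lw at h1
    linarith

theorem core (hc : S_CONC) (hi : S_ID) (hr : S_RATEX) (hk : S_CURV) {d : ℕ} (hd : 1 ≤ d)
    {Ω : Type} [MeasurableSpace Ω] (P : Measure Ω) [IsProbabilityMeasure P]
    (ω : ℕ → (Fin d → ℤ) → Ω → ℝ) (hω : IsEnv P ω)
    (hexp : ∀ b : ℝ, Integrable (fun x => Real.exp (b * ω 1 0 x)) P) (β : ℝ) :
    ∀ᵐ h : Fin d → ℝ, ∃ v : Fin d → ℝ, ∀ U : Set (Fin d → ℝ), IsOpen U → h ∈ U →
    ∀ ξ α C0 : ℝ, 0 < ξ → ξ < 1 → 0 < α → Conc P ω β U ξ α C0 →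
    ∀ (A : ℕ) (b c : ℝ), ξ / 2 < b → c < 2 * b →
    ∀ᵐ x ∂P, ∀ᶠ n : ℕ in atTop, ∀ (m : ℕ) (z : Fin d → ℤ), m ≤ n ^ A →
      (∀ k, |z k| ≤ (n : ℤ) ^ A) →
      1 - Real.exp (-(n : ℝ) ^ c) ≤ prob β h (fun i y => ω (m + i) (z + y) x) n
        {w | ∀ i j : ℕ, i ≤ j → j ≤ n →
          incr v w i j ≤ (n : ℝ) ^ b * Real.sqrt ((j : ℝ) - i)} := by
  obtain ⟨φ, hφ, hfr, hrate⟩ := hr d hd Ω P ω hω hexp β
  filter_upwards [hk d φ hφ] with h hh
  obtain ⟨v, C, hC, hcurv⟩ := hh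
  refine ⟨v, ?_⟩
  intro U hUo hhU ξ α C0 hξ hξ1 hα hU A b c hb hcb
  obtain ⟨C1, hC1⟩ := hrate U ξ α C0 hξ hξ1 hα hU
  obtain ⟨δ, hδ, hball⟩ := Metric.isOpen_iff.1 hUo h hhU
  obtain ⟨b', hb'1, hb'2⟩ := exists_between (show max (c / 2) (ξ / 2) < b from
    max_lt (by linarith) hb)
  have hb'c : c / 2 < b' := lt_of_le_of_lt (le_max_left _ _) hb'1
  have hb'ξ : ξ / 2 < b' := lt_of_le_of_lt (le_max_right _ _) hb'1
  obtain ⟨c1, hc1, hc1b⟩ := exists_between (show max c ξ < 2 * b' from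
    max_lt (by linarith) (by linarith))
  have hcc : c < c1 := lt_of_le_of_lt (le_max_left _ _) hc1
  have hc12 : ξ < c1 := lt_of_le_of_lt (le_max_right _ _) hc1
  obtain ⟨κ, hκ0, hκC, hκ1, hκδ⟩ : ∃ κ : ℝ, 0 < κ ∧ C * κ ≤ 1 / 2 ∧ κ ≤ 1 ∧ κ < δ := by
    refine ⟨min (1 / (2 * C + 2)) (δ / 2), lt_min (by positivity) (by positivity), ?_, ?_, ?_⟩
    · calc C * min (1 / (2 * C + 2)) (δ / 2) ≤ C * (1 / (2 * C + 2)) :=
            mul_le_mul_of_nonneg_left (min_le_left _ _) hC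
        _ ≤ 1 / 2 := by
          rw [mul_one_div, div_le_iff₀ (by positivity)]
          linarith
    · refine (min_le_left _ _).trans ?_
      rw [div_le_iff₀ (by positivity)]
      linarith
    · exact lt_of_le_of_lt (min_le_right _ _) (by linarith)
  have ht := tests hc hi hd P ω hω hexp β hξ hα hU c1 hc12 A (drift h κ b')
    (fun n l k t => drift_mem hκ0 hκδ hball b' n l k t)
  filter_upwards [ht] with x hx
  filter_upwards [hx, asyP hd C1 κ b' c c1 ξ hκ0 hξ hc12 hcc hc1b,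
    ev_pow (d * (1 + ∑ k, |v k|)) b' b hb'2, eventually_ge_atTop 1]
    with n key hasy hKn hn1 m z hm hz
  have hdet := conf_of_tests (E := (n : ℝ) ^ c1) (fr := fun h n => free P ω β h n)
    (Er := C1 * (n : ℝ) ^ ξ * Real.log (n + 1)) hd hn1 (fun h n => hfr h n) (hC1 h hhU n)
    hcurv hκ0 hκ1 hκC key m z hm hz
  have h1 : 1 - Real.exp (-(n : ℝ) ^ c) ≤ 1 - 2 * d * (n + 1) ^ 2 *
      Real.exp (-(κ / 2 * ((n : ℝ) ^ b') ^ 2) + 4 * (n : ℝ) ^ c1 +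
        C1 * (n : ℝ) ^ ξ * Real.log (n + 1)) := by linarith
  refine h1.trans (hdet.trans (prob_mono _ _ _ ?_))
  intro w hw i j hij hj
  have hs : 0 ≤ ∑ k, |v k| := Finset.sum_nonneg fun _ _ => abs_nonneg _
  have h2 := incr_le_of (v := v) (w := w) (i := i) (j := j)
    (r := (1 + ∑ k, |v k|) * (n : ℝ) ^ b' * Real.sqrt ((j : ℝ) - i)) (by positivity)
    (hw i j hij hj)
  refine h2.trans ?_
  calc (d : ℝ) * ((1 + ∑ k, |v k|) * (n : ℝ) ^ b' * Real.sqrt ((j : ℝ) - i)) =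
        (d * (1 + ∑ k, |v k|) * (n : ℝ) ^ b') * Real.sqrt ((j : ℝ) - i) := by ring
    _ ≤ (n : ℝ) ^ b * Real.sqrt ((j : ℝ) - i) :=
        mul_le_mul_of_nonneg_right hKn (Real.sqrt_nonneg _)

end Pool.Agent.Run7.H986.PM
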