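import Pool.Agent.N662.SE.Det
import Pool.Agent.N340.SE.PP

/-!
# Mesoscopic confinement of directed polymers: the pathwise bound for increments (helper986)

Built on the starting module `Pool.Agent.N340.SE.PP`.
-/

set_option autoImplicit false

open MeasureTheory ProbabilityTheory Filter Topology

namespace Pool.Agent.Run7.H986.PM

open TH967.DP Pool.Agent.N662.SE

variable {d : ℕ}

/-- the partition function of a set of walks of `i + T` steps, split at time `i` -/
lemma part_split (β : ℝ) (h : Fin d → ℝ) (η : ℕ → (Fin d → ℤ) → ℝ) (i T : ℕ)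
    (A : Set (Fin (i + T) → Step d)) (B : (Fin i → Step d) → Set (Fin T → Step d))
    (hAB : ∀ a b, Fin.append a b ∈ A → b ∈ B a) :
    part β h η (i + T) A ≤ ∑ a : Fin i → Step d,
      Real.exp (β * energy η a + ∑ j, h j * (pos a i j : ℝ)) *
        part β h (fun j y => η (i + j) (pos a i + y)) T (B a) := by
  classical
  unfold part
  rw [sum_append]
  refine Finset.sum_le_sum fun a _ => ?_
  rw [Finset.mul_sum]
  refine Finset.sum_le_sum fun b _ => ?_
  have hfac : Real.exp (β * energy η (Fin.append a b) +
      ∑ k, h k * (pos (Fin.append a b) (i + T) k : ℝ)) =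
      Real.exp (β * energy η a + ∑ j, h j * (pos a i j : ℝ)) *
        Real.exp (β * energy (fun j y => η (i + j) (pos a i + y)) b +
          ∑ j, h j * (pos b T j : ℝ)) := by
    rw [← Real.exp_add, energy_append, pos_append_right]
    have e : ∑ j, h j * (((pos a i + pos b T) j : ℤ) : ℝ) =
        ∑ j, h j * (pos a i j : ℝ) + ∑ j, h j * (pos b T j : ℝ) := by
      rw [← Finset.sum_add_distrib]
      refine Finset.sum_congr rfl fun j _ => ?_
      rw [Pi.add_apply]
      push_cast
      ring
    rw [e]
    have e2 : energy (shift i (pos a i) η) b =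
        energy (fun j y => η (i + j) (pos a i + y)) b := rfl
    rw [e2]
    congr 1
    ring
  by_cases hA : Fin.append a b ∈ A
  · rw [Set.indicator_of_mem hA, Set.indicator_of_mem (hAB a b hA), hfac]
  · rw [Set.indicator_of_notMem hA]
    exact mul_nonneg (Real.exp_pos _).le
      (Set.indicator_nonneg (fun _ _ => (Real.exp_pos _).le) _)

/-- the tail of one coordinate of an increment -/
lemma pp2 (β : ℝ) (h : Fin d → ℝ) (η : ℕ → (Fin d → ℤ) → ℝ) (n i j : ℕ) (hij : i ≤ j)
    (hjn : j ≤ n) (hd : 1 ≤ d) (k : Fin d) (s u M1 M2 : ℝ)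
    (h1 : ∀ z : Fin d → ℤ, (∀ l, |z l| ≤ n) →
      Real.log (part β h (fun t y => η (j + t) (z + y)) (n - j) Set.univ) ≤ M1)
    (h2 : ∀ z : Fin d → ℤ, (∀ l, |z l| ≤ n) →
      Real.log (part β (h + Pi.single k s) (fun t y => η (i + t) (z + y)) (j - i) Set.univ) ≤ M2) :
    part β h η n {w | u ≤ s * ((pos w j k : ℝ) - pos w i k)} ≤
      Real.exp (-u + M1 + M2) * part β h η i Set.univ := by
  obtain ⟨T, rfl⟩ := Nat.exists_eq_add_of_le (hij.trans hjn)
  obtain ⟨l, rfl⟩ := Nat.exists_eq_add_of_le hij
  have hlT : l ≤ T := by omega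
  have e1 : i + T - (i + l) = T - l := by omega
  have e2 : i + l - i = l := by omega
  rw [e1] at h1
  rw [e2] at h2
  refine (part_split β h η i T _ (fun a => {b | u ≤ s * (pos b l k : ℝ)}) ?_).trans ?_
  · intro a b hab
    have h3 : u ≤ s * ((pos (Fin.append a b) (i + l) k : ℝ) - pos (Fin.append a b) i k) := hab
    rw [pos_append_right, pos_append_left a b le_rfl, Pi.add_apply] at h3
    push_cast at h3
    show u ≤ s * (pos b l k : ℝ)
    have e3 : (pos a i k : ℝ) + (pos b l k : ℝ) - pos a i k = pos b l k := by ring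
    rwa [e3] at h3
  have hpi : part β h η i Set.univ = ∑ a : Fin i → Step d,
      Real.exp (β * energy η a + ∑ j, h j * (pos a i j : ℝ)) := by
    unfold part
    simp only [Set.indicator_univ]
  rw [hpi, Finset.mul_sum]
  refine Finset.sum_le_sum fun a _ => ?_
  rw [mul_comm]
  refine mul_le_mul_of_nonneg_right ?_ (Real.exp_pos _).le
  have hpos : ∀ q : Fin d, |pos a i q| ≤ (i : ℤ) := fun q => abs_pos_le a i q
  have h4 := Pool.Agent.N340.SE.pp d β h (fun t y => η (i + t) (pos a i + y)) T l hlT k s u M1
    (by
      intro z hz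
      have h5 := h1 (pos a i + z) (fun q => by
        have := abs_add_le (pos a i q) (z q)
        have h6 := hpos q
        have h7 := hz q
        rw [Pi.add_apply]
        push_cast
        omega)
      have e : (fun (t : ℕ) (y : Fin d → ℤ) => η (i + (l + t)) (pos a i + (z + y))) =
          fun t y => η (i + l + t) (pos a i + z + y) := by
        funext t y
        rw [add_assoc, add_assoc]
      rw [e]
      exact h5)
  refine h4.trans ?_
  have h8 := h2 (pos a i) (fun q => by
    have h6 := hpos q
    push_cast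
    omega)
  rw [show -u + M1 + M2 = (-u + M1) + M2 by ring, Real.exp_add (-u + M1) M2]
  refine mul_le_mul_of_nonneg_left ?_ (Real.exp_pos _).le
  exact (Real.log_le_iff_le_exp (Pool.Agent.N662.SE.part_univ_pos hd _ _ _ _)).1 h8

/-- the walk moves by at most one unit in each step -/
lemma abs_incr_le {n : ℕ} (w : Fin n → Step d) {i j : ℕ} (hij : i ≤ j) (k : Fin d) :
    |(pos w j k : ℝ) - pos w i k| ≤ (j : ℝ) - i := by
  have h0 : ∀ t : ℕ, |pos w (t + 1) k - pos w t k| ≤ 1 := by
    intro t
    unfold pos
    rw [← Pi.sub_apply, ← Finset.sum_sub_distrib, Finset.sum_apply]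
    by_cases ht : t < n
    · rw [Finset.sum_eq_single (⟨t, ht⟩ : Fin n)]
      · rw [if_pos (show t < t + 1 by omega), if_neg (lt_irrefl t), sub_zero]
        have := l1_stepVec (w ⟨t, ht⟩)
        rw [← this]
        exact Finset.single_le_sum (f := fun k => |stepVec (w ⟨t, ht⟩) k|)
          (fun _ _ => abs_nonneg _) (Finset.mem_univ k)
      · intro q _ hq
        have hq' : q.val ≠ t := fun hh => hq (Fin.ext hh)
        by_cases h1 : q.val < t
        · rw [if_pos (by omega), if_pos h1, sub_self, Pi.zero_apply]
        · rw [if_neg (by omega), if_neg h1, sub_self, Pi.zero_apply]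
      · intro hh
        exact absurd (Finset.mem_univ _) hh
    · rw [Finset.sum_eq_zero]
      · simp
      · intro q _
        have := q.isLt
        rw [if_pos (by omega), if_pos (by omega), sub_self, Pi.zero_apply]
  obtain ⟨l, rfl⟩ := Nat.exists_eq_add_of_le hij
  have h1 : ∀ l : ℕ, |pos w (i + l) k - pos w i k| ≤ (l : ℤ) := by
    intro l
    induction l with
    | zero => simp
    | succ l ih =>
      have h2 := h0 (i + l)
      have h3 : pos w (i + (l + 1)) k - pos w i k =
          (pos w (i + l + 1) k - pos w (i + l) k) + (pos w (i + l) k - pos w i k) := by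
        rw [← add_assoc]
        ring
      rw [h3]
      have h4 := abs_add_le (pos w (i + l + 1) k - pos w (i + l) k) (pos w (i + l) k - pos w i k)
      push_cast
      linarith
  have h2 := h1 l
  have h3 : ((|pos w (i + l) k - pos w i k| : ℤ) : ℝ) ≤ ((l : ℤ) : ℝ) := by exact_mod_cast h2
  push_cast at h3 ⊢
  linarith

end Pool.Agent.Run7.H986.PM
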