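import Pool.Agent.N662.SE.Stm2
import Pool.Agent.N427.SE.UPX
import Pool.Agent.Run7.h986.PM.Path

/-!
# Mesoscopic confinement of directed polymers: the deterministic estimate (helper986)

The scheme is that of the starting module `Pool.Agent.N700.SE.UPD`, applied to all increments of
the path at all scales, with a tilt depending on the length of the increment.
-/

set_option autoImplicit false

open MeasureTheory ProbabilityTheory Filter Topology

namespace Pool.Agent.Run7.H986.PM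

open TH967.DP Pool.Agent.N662.SE
open Pool.Agent.N700.SE.UPD hiding part_univ_pos

variable {d : ℕ}

lemma det2 (hd : 1 ≤ d) {β : ℝ} {h v : Fin d → ℝ} {η : ℕ → (Fin d → ℤ) → ℝ} {n : ℕ}
    {fr : (Fin d → ℝ) → ℕ → ℝ} {φ : (Fin d → ℝ) → ℝ} {C E G Er κ K : ℝ}
    (hfr : ∀ h n, fr h n ≤ n * φ h) (hlow : n * φ h ≤ fr h n + Er)
    (hcurv : ∀ (k : Fin d) (s : ℝ), |s| ≤ 1 →
      φ (h + Pi.single k s) ≤ φ h + s * v k + C * s ^ 2)
    (hκ0 : 0 < κ) (hκ1 : κ ≤ 1) (hκC : C * κ ≤ 1 / 2) (hG : 0 < G)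
    (hK : ∀ k, 1 + |v k| ≤ K) (σ : ℕ → ℝ)
    (hσ : ∀ l : ℕ, σ l = κ * min 1 (G / Real.sqrt l))
    (ha : fr h n - E ≤ Real.log (part β h η n Set.univ))
    (hpre : ∀ i ≤ n, Real.log (part β h η i Set.univ) ≤ fr h i + E)
    (hmid : ∀ i l : ℕ, i + l ≤ n → ∀ z : Fin d → ℤ, (∀ q, |z q| ≤ n) → ∀ k : Fin d, ∀ s : ℝ,
      s = σ l ∨ s = -σ l →
      Real.log (part β (h + Pi.single k s) (fun t y => η (i + t) (z + y)) l Set.univ) ≤
        fr (h + Pi.single k s) l + E)
    (hsuf : ∀ j ≤ n, ∀ z : Fin d → ℤ, (∀ q, |z q| ≤ n) →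
      Real.log (part β h (fun t y => η (j + t) (z + y)) (n - j) Set.univ) ≤ fr h (n - j) + E) :
    1 - 2 * d * (n + 1) ^ 2 * Real.exp (-(κ / 2 * G ^ 2) + 4 * E + Er) ≤
      prob β h η n {w | ∀ i j : ℕ, i ≤ j → j ≤ n → ∀ k,
        |((pos w j k : ℝ) - pos w i k) - ((j : ℝ) - i) * v k| ≤
          K * G * Real.sqrt ((j : ℝ) - i)} := by
  classical
  set A : Set (Fin n → Step d) := {w | ∀ i j : ℕ, i ≤ j → j ≤ n → ∀ k,
        |((pos w j k : ℝ) - pos w i k) - ((j : ℝ) - i) * v k| ≤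
          K * G * Real.sqrt ((j : ℝ) - i)} with hA
  have hZ := part_univ_pos hd β h η n
  have hK1 : 1 ≤ K := by
    have h1 := hK ⟨0, hd⟩
    have h2 := abs_nonneg (v ⟨0, hd⟩)
    linarith
  -- one piece
  have piece : ∀ i l : ℕ, i + l ≤ n → G < Real.sqrt l → ∀ k : Fin d, ∀ s : ℝ,
      s = σ l ∨ s = -σ l →
      part β h η n {w | s * l * v k + σ l * (G * Real.sqrt l) ≤
        s * ((pos w (i + l) k : ℝ) - pos w i k)} ≤
        Real.exp (n * φ h - κ / 2 * G ^ 2 + 3 * E) := by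
    intro i l hil hGl k s hs
    have hsp : 0 < Real.sqrt l := hG.trans hGl
    have hsq : Real.sqrt l * Real.sqrt l = l := Real.mul_self_sqrt (Nat.cast_nonneg l)
    have hmin : min 1 (G / Real.sqrt l) = G / Real.sqrt l :=
      min_eq_right ((div_le_one hsp).2 hGl.le)
    have hσl : σ l = κ * (G / Real.sqrt l) := by rw [hσ l, hmin]
    have hσ0 : 0 < σ l := by rw [hσl]; positivity
    have hσ1 : σ l ≤ 1 := by
      rw [hσl]
      calc κ * (G / Real.sqrt l) ≤ 1 * 1 :=
            mul_le_mul hκ1 ((div_le_one hsp).2 hGl.le) (by positivity) zero_le_one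
        _ = 1 := one_mul 1
    have hs2 : s ^ 2 = σ l ^ 2 := by rcases hs with rfl | rfl <;> ring
    have hs1 : |s| ≤ 1 := by
      rcases hs with rfl | rfl
      · rwa [abs_of_pos hσ0]
      · rwa [abs_neg, abs_of_pos hσ0]
    have e1 : i + l - i = l := by omega
    have h1 := pp2 β h η n i (i + l) (Nat.le_add_right i l) hil hd k s
      (s * l * v k + σ l * (G * Real.sqrt l)) (fr h (n - (i + l)) + E)
      (fr (h + Pi.single k s) l + E) (hsuf (i + l) hil)
      (by
        intro z hz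
        rw [e1]
        exact hmid i l hil z hz k s hs)
    have h2 : part β h η i Set.univ ≤ Real.exp (fr h i + E) :=
      (Real.log_le_iff_le_exp (part_univ_pos hd _ _ _ _)).1 (hpre i (by omega))
    refine h1.trans ?_
    refine (mul_le_mul_of_nonneg_left h2 (Real.exp_pos _).le).trans ?_
    rw [← Real.exp_add]
    apply Real.exp_le_exp.2
    have h3 := hfr h (n - (i + l))
    have h4 := hfr (h + Pi.single k s) l
    have h4' := hfr h i
    have h5 := hcurv k s hs1
    have h6 : (l : ℝ) * φ (h + Pi.single k s) ≤ l * (φ h + s * v k + C * s ^ 2) :=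
      mul_le_mul_of_nonneg_left h5 (Nat.cast_nonneg _)
    have h8 : ((n - (i + l) : ℕ) : ℝ) = n - i - l := by
      rw [Nat.cast_sub hil]
      push_cast
      ring
    rw [h8] at h3
    rw [hs2] at h6
    have e2 : σ l * (G * Real.sqrt l) = κ * G ^ 2 := by
      rw [hσl]
      field_simp
    have e3 : (l : ℝ) * σ l ^ 2 = κ * (κ * G ^ 2) := by
      rw [hσl, mul_pow, div_pow, sq (Real.sqrt l), hsq]
      have hl0 : (l : ℝ) ≠ 0 := by
        rw [← hsq]
        positivity
      field_simp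
    have h9 : C * κ * (κ * G ^ 2) ≤ 1 / 2 * (κ * G ^ 2) :=
      mul_le_mul_of_nonneg_right hκC (by positivity)
    have h10 : (l : ℝ) * (φ h + s * v k + C * σ l ^ 2) =
        l * φ h + s * l * v k + C * κ * (κ * G ^ 2) := by
      have : (l : ℝ) * (φ h + s * v k + C * σ l ^ 2) =
          l * φ h + s * l * v k + C * (l * σ l ^ 2) := by ring
      rw [this, e3]
      ring
    rw [h10] at h6
    rw [e2]
    linarith
  -- the covering
  set T : Finset (ℕ × ℕ × Fin d × Bool) :=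
    (Finset.range (n + 1) ×ˢ Finset.range (n + 1) ×ˢ
      (Finset.univ : Finset (Fin d × Bool))).filter
      (fun t => t.1 + t.2.1 ≤ n ∧ G < Real.sqrt t.2.1) with hT
  have hcov : part β h η n Aᶜ ≤ ∑ t ∈ T,
      part β h η n {w | (if t.2.2.2 then σ t.2.1 else -σ t.2.1) * t.2.1 * v t.2.2.1 +
        σ t.2.1 * (G * Real.sqrt t.2.1) ≤ (if t.2.2.2 then σ t.2.1 else -σ t.2.1) *
          ((pos w (t.1 + t.2.1) t.2.2.1 : ℝ) - pos w t.1 t.2.2.1)} := by
    apply part_le
    intro w hw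
    have hw' : ¬ ∀ i j : ℕ, i ≤ j → j ≤ n → ∀ k,
        |((pos w j k : ℝ) - pos w i k) - ((j : ℝ) - i) * v k| ≤
          K * G * Real.sqrt ((j : ℝ) - i) := hw
    push Not at hw'
    obtain ⟨i, j, hij, hj, k, hik⟩ := hw'
    obtain ⟨l, rfl⟩ := Nat.exists_eq_add_of_le hij
    have e0 : (((i + l : ℕ) : ℝ) - i) = l := by push_cast; ring
    rw [e0] at hik
    have hsq : Real.sqrt l * Real.sqrt l = l := Real.mul_self_sqrt (Nat.cast_nonneg l)
    have hs0 : 0 ≤ Real.sqrt l := Real.sqrt_nonneg _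
    have hGl : G < Real.sqrt l := by
      by_contra hcon
      push Not at hcon
      have h1 := abs_incr_le w hij k
      rw [e0] at h1
      have h2 : |((pos w (i + l) k : ℝ) - pos w i k) - (l : ℝ) * v k| ≤ l * (1 + |v k|) := by
        calc |((pos w (i + l) k : ℝ) - pos w i k) - (l : ℝ) * v k| ≤
              |((pos w (i + l) k : ℝ) - pos w i k)| + |(l : ℝ) * v k| := abs_sub _ _
          _ ≤ l + l * |v k| := by
              rw [abs_mul, Nat.abs_cast]
              linarith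
          _ = l * (1 + |v k|) := by ring
      have h3 : (l : ℝ) * (1 + |v k|) ≤ l * K :=
        mul_le_mul_of_nonneg_left (hK k) (Nat.cast_nonneg _)
      have h4 : (l : ℝ) * K ≤ K * G * Real.sqrt l := by
        calc (l : ℝ) * K = K * (Real.sqrt l * Real.sqrt l) := by rw [hsq]; ring
          _ ≤ K * (G * Real.sqrt l) := by
              apply mul_le_mul_of_nonneg_left _ (by linarith)
              exact mul_le_mul_of_nonneg_right hcon hs0
          _ = K * G * Real.sqrt l := by ring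
      linarith
    have hsp : 0 < Real.sqrt l := hG.trans hGl
    have hmin : min 1 (G / Real.sqrt l) = G / Real.sqrt l :=
      min_eq_right ((div_le_one hsp).2 hGl.le)
    have hσ0 : 0 < σ l := by rw [hσ l, hmin]; positivity
    have hik2 : G * Real.sqrt l < |((pos w (i + l) k : ℝ) - pos w i k) - (l : ℝ) * v k| := by
      refine lt_of_le_of_lt ?_ hik
      have : 1 * (G * Real.sqrt l) ≤ K * (G * Real.sqrt l) :=
        mul_le_mul_of_nonneg_right hK1 (by positivity)
      linarith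
    have hmem : ∀ t : Bool, (i, l, k, t) ∈ T := by
      intro t
      rw [hT, Finset.mem_filter]
      refine ⟨?_, hj, hGl⟩
      simp only [Finset.mem_product, Finset.mem_range, Finset.mem_univ, and_true]
      omega
    rcases lt_abs.1 hik2 with h1 | h1
    · refine ⟨(i, l, k, true), hmem true, ?_⟩
      show (if true then σ l else -σ l) * l * v k + σ l * (G * Real.sqrt l) ≤
        (if true then σ l else -σ l) * ((pos w (i + l) k : ℝ) - pos w i k)
      simp only [if_true]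
      have h2 := mul_lt_mul_of_pos_left h1 hσ0
      linarith
    · refine ⟨(i, l, k, false), hmem false, ?_⟩
      show (if false then σ l else -σ l) * l * v k + σ l * (G * Real.sqrt l) ≤
        (if false then σ l else -σ l) * ((pos w (i + l) k : ℝ) - pos w i k)
      simp only [Bool.false_eq_true, if_false]
      have h2 := mul_lt_mul_of_pos_left h1 hσ0
      linarith
  have hTc : (T.card : ℝ) ≤ 2 * d * (n + 1) ^ 2 := by
    have h1 : T.card ≤ (n + 1) * ((n + 1) * (d * 2)) := by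
      refine (Finset.card_filter_le _ _).trans ?_
      rw [Finset.card_product, Finset.card_product, Finset.card_range, Finset.card_univ,
        Fintype.card_prod, Fintype.card_fin, Fintype.card_bool]
    have h2 : (T.card : ℝ) ≤ (((n + 1) * ((n + 1) * (d * 2)) : ℕ) : ℝ) := by exact_mod_cast h1
    refine h2.trans (le_of_eq ?_)
    push_cast
    ring
  have hcov2 : part β h η n Aᶜ ≤
      2 * d * (n + 1) ^ 2 * Real.exp (n * φ h - κ / 2 * G ^ 2 + 3 * E) := by
    refine hcov.trans ?_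
    refine (Finset.sum_le_card_nsmul _ _
      (Real.exp (n * φ h - κ / 2 * G ^ 2 + 3 * E)) ?_).trans ?_
    · intro t ht
      rw [hT, Finset.mem_filter] at ht
      obtain ⟨-, ht1, ht2⟩ := ht
      apply piece t.1 t.2.1 ht1 ht2 t.2.2.1
      by_cases h1 : t.2.2.2 = true
      · left; rw [if_pos h1]
      · right; rw [if_neg h1]
    · rw [nsmul_eq_mul]
      exact mul_le_mul_of_nonneg_right hTc (Real.exp_pos _).le
  have hZ2 : Real.exp (n * φ h - Er - E) ≤ part β h η n Set.univ := by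
    rw [← Real.exp_log hZ]
    apply Real.exp_le_exp.2
    linarith
  have hsplit := part_compl β h η n A
  have hprob : prob β h η n A = 1 - part β h η n Aᶜ / part β h η n Set.univ := by
    unfold prob
    rw [← hsplit] at hZ ⊢
    field_simp
    ring
  rw [hprob]
  have hq : part β h η n Aᶜ / part β h η n Set.univ ≤
      2 * d * (n + 1) ^ 2 * Real.exp (-(κ / 2 * G ^ 2) + 4 * E + Er) := by
    rw [div_le_iff₀ hZ]
    calc part β h η n Aᶜ ≤
          2 * d * (n + 1) ^ 2 * Real.exp (n * φ h - κ / 2 * G ^ 2 + 3 * E) := hcov2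
      _ = 2 * d * (n + 1) ^ 2 * (Real.exp (-(κ / 2 * G ^ 2) + 4 * E + Er) *
            Real.exp (n * φ h - Er - E)) := by
          rw [← Real.exp_add]
          congr 2
          ring
      _ ≤ 2 * d * (n + 1) ^ 2 * (Real.exp (-(κ / 2 * G ^ 2) + 4 * E + Er) *
            part β h η n Set.univ) := by
          apply mul_le_mul_of_nonneg_left _ (by positivity)
          exact mul_le_mul_of_nonneg_left hZ2 (Real.exp_pos _).le
      _ = _ := by ring
  linarith

/-! ### Asymptotics -/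

lemma asyP {d : ℕ} (hd : 1 ≤ d) (C1 κ b c c1 ξ : ℝ) (hκ : 0 < κ) (hξ : 0 < ξ) (hc1 : ξ < c1)
    (hcc : c < c1) (hb : c1 < 2 * b) : ∀ᶠ n : ℕ in atTop,
    2 * d * (n + 1) ^ 2 * Real.exp (-(κ / 2 * ((n : ℝ) ^ b) ^ 2) + 4 * (n : ℝ) ^ c1 +
      C1 * (n : ℝ) ^ ξ * Real.log (n + 1)) ≤ Real.exp (-(n : ℝ) ^ c) := by
  obtain ⟨c2, hc2, hc2b⟩ := exists_between hb
  have h0 := Pool.Agent.N427.SE.UPX.asyX hd C1 κ (b + 1 / 2) c c2 ξ hκ hξ (hc1.trans hc2)
    (hcc.trans hc2) (by linarith)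
  filter_upwards [h0, ev_log 1 c1 one_pos (by linarith), ev_pow (5 / 3) c1 c2 hc2,
    eventually_ge_atTop 1] with n e0 e1 e2 hn1
  have hnp : (0 : ℝ) < n := by exact_mod_cast hn1
  refine le_trans ?_ e0
  rw [one_mul] at e1
  have e3 : ((n : ℝ) ^ b) ^ 2 = (n : ℝ) ^ (2 * (b + 1 / 2) - 1) := by
    rw [← Real.rpow_natCast, ← Real.rpow_mul hnp.le]
    congr 1
    push_cast
    ring
  rw [e3]
  have h1 : (n : ℝ) + 1 ≤ Real.exp ((n : ℝ) ^ c1) := by
    rw [← Real.exp_log (show (0 : ℝ) < n + 1 by positivity)]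
    exact Real.exp_le_exp.2 e1
  set X : ℝ := -(κ / 2 * (n : ℝ) ^ (2 * (b + 1 / 2) - 1)) with hX
  calc 2 * (d : ℝ) * (n + 1) ^ 2 * Real.exp (X + 4 * (n : ℝ) ^ c1 +
        C1 * (n : ℝ) ^ ξ * Real.log (n + 1)) =
        2 * d * (n + 1) * ((n + 1) * Real.exp (X + 4 * (n : ℝ) ^ c1 +
          C1 * (n : ℝ) ^ ξ * Real.log (n + 1))) := by ring
    _ ≤ 2 * d * (n + 1) * (Real.exp ((n : ℝ) ^ c1) * Real.exp (X + 4 * (n : ℝ) ^ c1 +
          C1 * (n : ℝ) ^ ξ * Real.log (n + 1))) := by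
        apply mul_le_mul_of_nonneg_left _ (by positivity)
        exact mul_le_mul_of_nonneg_right h1 (Real.exp_pos _).le
    _ ≤ 2 * d * (n + 1) * Real.exp (X + 3 * (n : ℝ) ^ c2 +
          C1 * (n : ℝ) ^ ξ * Real.log (n + 1)) := by
        apply mul_le_mul_of_nonneg_left _ (by positivity)
        rw [← Real.exp_add]
        apply Real.exp_le_exp.2
        linarith

/-- summability -/
lemma summ2 (M : ℕ) (D α ε : ℝ) (hα : 0 < α) (hε : 0 < ε) :
    Summable (fun n : ℕ => D * (n : ℝ) ^ M * Real.exp (-(α * (n : ℝ) ^ ε))) := by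
  obtain ⟨N, hN⟩ := exists_nat_gt ((M + 2 : ℝ) / ε)
  have hN' : (M + 2 : ℝ) ≤ ε * N := by
    rw [div_lt_iff₀ hε] at hN
    linarith
  have h1 := (Real.tendsto_pow_mul_exp_neg_atTop_nhds_zero N).comp
    ((((tendsto_rpow_atTop hε).comp tendsto_natCast_atTop_atTop)).const_mul_atTop hα)
  have h2 := h1.eventually (gt_mem_nhds (show (0 : ℝ) < α ^ N / (|D| + 1) by positivity))
  refine Summable.of_norm_bounded_eventually_nat (g := fun n : ℕ => 1 / (n : ℝ) ^ 2)
    (Real.summable_one_div_nat_pow.2 one_lt_two) ?_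
  filter_upwards [h2, eventually_ge_atTop 1] with n hn hn1
  have hn0 : (1 : ℝ) ≤ n := by exact_mod_cast hn1
  have hnp : (0 : ℝ) < n := by linarith
  simp only [Function.comp_apply] at hn
  rw [Real.norm_eq_abs, abs_mul, abs_mul, abs_of_pos (Real.exp_pos _),
    abs_of_nonneg (show (0 : ℝ) ≤ (n : ℝ) ^ M by positivity), le_div_iff₀ (by positivity)]
  have hpw : (n : ℝ) ^ (M + 2) ≤ ((n : ℝ) ^ ε) ^ N := by
    rw [← Real.rpow_natCast, ← Real.rpow_natCast, ← Real.rpow_mul hnp.le]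
    apply Real.rpow_le_rpow_of_exponent_le hn0
    push_cast
    exact hN'
  rw [lt_div_iff₀ (by positivity)] at hn
  have hαN : 0 < α ^ N := by positivity
  have h3 : (α * (n : ℝ) ^ ε) ^ N = α ^ N * ((n : ℝ) ^ ε) ^ N := mul_pow _ _ _
  rw [h3] at hn
  have h4 : α ^ N * ((n : ℝ) ^ (M + 2) * Real.exp (-(α * (n : ℝ) ^ ε)) * (|D| + 1)) ≤ α ^ N * 1 := by
    calc α ^ N * ((n : ℝ) ^ (M + 2) * Real.exp (-(α * (n : ℝ) ^ ε)) * (|D| + 1)) ≤
          α ^ N * (((n : ℝ) ^ ε) ^ N * Real.exp (-(α * (n : ℝ) ^ ε)) * (|D| + 1)) := by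
          apply mul_le_mul_of_nonneg_left _ hαN.le
          apply mul_le_mul_of_nonneg_right _ (by positivity)
          exact mul_le_mul_of_nonneg_right hpw (Real.exp_pos _).le
      _ = α ^ N * ((n : ℝ) ^ ε) ^ N * Real.exp (-(α * (n : ℝ) ^ ε)) * (|D| + 1) := by ring
      _ ≤ α ^ N := hn.le
      _ = α ^ N * 1 := (mul_one _).symm
  have h5 := le_of_mul_le_mul_left h4 hαN
  have h6 : 0 ≤ (n : ℝ) ^ (M + 2) * Real.exp (-(α * (n : ℝ) ^ ε)) := by positivity
  calc |D| * (n : ℝ) ^ M * Real.exp (-(α * (n : ℝ) ^ ε)) * (n : ℝ) ^ 2 =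
        (n : ℝ) ^ (M + 2) * Real.exp (-(α * (n : ℝ) ^ ε)) * |D| := by ring
    _ ≤ (n : ℝ) ^ (M + 2) * Real.exp (-(α * (n : ℝ) ^ ε)) * (|D| + 1) :=
        mul_le_mul_of_nonneg_left (by linarith) h6
    _ ≤ 1 := h5

end Pool.Agent.Run7.H986.PM
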