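import Pool.Agent.N662.SE.All
import Pool.Agent.N523.SE.MGF
import Pool.Agent.Run7.h986.PM.Core

/-!
# Mesoscopic confinement of directed polymers: final form (helper986)
-/

set_option autoImplicit false

open MeasureTheory ProbabilityTheory Filter Topology

namespace Pool.Agent.Run7.H986.PM

open TH967.DP (Step pos energy)
open Pool.Agent.N662.SE

variable {d : ℕ}

/-- The expectation of `f` under the polymer measure with inverse temperature `β` and drift `h`. -/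
noncomputable def mean (β : ℝ) (h : Fin d → ℝ) (η : ℕ → (Fin d → ℤ) → ℝ) {n : ℕ}
    (f : (Fin n → Step d) → ℝ) : ℝ :=
  (∑ w : Fin n → Step d, weight β h η w * f w) / ∑ w : Fin n → Step d, weight β h η w

lemma mean_le (hd : 1 ≤ d) {β : ℝ} {h : Fin d → ℝ} {η : ℕ → (Fin d → ℤ) → ℝ} {n : ℕ}
    {A : Set (Fin n → Step d)} {f : (Fin n → Step d) → ℝ} {r R ε : ℝ} (hr : 0 ≤ r) (hR : 0 ≤ R)
    (hA : 1 - ε ≤ polymer β h η n A) (h1 : ∀ w ∈ A, f w ≤ r) (h2 : ∀ w, f w ≤ R) :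
    mean β h η f ≤ r + ε * R := by
  haveI : Nonempty (Fin n → Step d) := ⟨fun _ => (⟨0, hd⟩, true)⟩
  have hZ : (0 : ℝ) < ∑ w : Fin n → Step d, weight β h η w :=
    Finset.sum_pos (fun w _ => Real.exp_pos _) Finset.univ_nonempty
  have hp1 := polymer_le_one hd β h η n A
  unfold polymer at hA hp1
  rw [le_div_iff₀ hZ] at hA
  rw [div_le_one hZ] at hp1
  unfold mean
  rw [div_le_iff₀ hZ]
  have h3 : ∑ w : Fin n → Step d, weight β h η w * f w ≤
      (∑ w : Fin n → Step d, A.indicator (weight β h η) w) * r +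
        ((∑ w : Fin n → Step d, weight β h η w) -
          ∑ w : Fin n → Step d, A.indicator (weight β h η) w) * R := by
    rw [← Finset.sum_sub_distrib, Finset.sum_mul, Finset.sum_mul, ← Finset.sum_add_distrib]
    refine Finset.sum_le_sum fun w _ => ?_
    have hw0 : 0 ≤ weight β h η w := (Real.exp_pos _).le
    by_cases hw : w ∈ A
    · rw [Set.indicator_of_mem hw, sub_self, zero_mul, add_zero]
      exact mul_le_mul_of_nonneg_left (h1 w hw) hw0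
    · rw [Set.indicator_of_notMem hw, zero_mul, zero_add, sub_zero]
      exact mul_le_mul_of_nonneg_left (h2 w) hw0
  have hA0 : 0 ≤ ∑ w : Fin n → Step d, A.indicator (weight β h η) w :=
    Finset.sum_nonneg fun w _ => Set.indicator_nonneg (fun _ _ => (Real.exp_pos _).le) _
  set Z : ℝ := ∑ w : Fin n → Step d, weight β h η w
  set ZA : ℝ := ∑ w : Fin n → Step d, A.indicator (weight β h η) w
  have h4 : ZA * r ≤ Z * r := mul_le_mul_of_nonneg_right hp1 hr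
  have h5 : (Z - ZA) * R ≤ (ε * Z) * R := by
    apply mul_le_mul_of_nonneg_right _ hR
    linarith
  calc ∑ w : Fin n → Step d, weight β h η w * f w ≤ ZA * r + (Z - ZA) * R := h3
    _ ≤ Z * r + (ε * Z) * R := add_le_add h4 h5
    _ = (r + ε * R) * Z := by ring

lemma pos_zero {n : ℕ} (w : Fin n → Step d) : pos w 0 = 0 := by
  unfold TH967.DP.pos
  simp

lemma incr_zero (v : Fin d → ℝ) {n : ℕ} (w : Fin n → Step d) (i : ℕ) :
    incr v w 0 i = dev v w i := by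
  unfold incr dev
  rw [pos_zero]
  simp

/-- the relation between the exponents from the confinement of increments -/
lemma scal (hc : S_CONC) (hd : 1 ≤ d) {Ω : Type} [MeasurableSpace Ω] {P : Measure Ω}
    [IsProbabilityMeasure P] {ω : ℕ → (Fin d → ℤ) → Ω → ℝ} (he : IsEnv P ω)
    (hexp : ∀ b : ℝ, Integrable (fun x => Real.exp (b * ω 1 0 x)) P) {β : ℝ} {h v : Fin d → ℝ}
    (H : ∀ ξ : ℝ, 0 < ξ → ξ < 1 → Concentrated P ω β h ξ → ∀ (A : ℕ) (b c : ℝ), ξ / 2 < b →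
      c < 2 * b → ∀ᵐ x ∂P, ∀ᶠ n : ℕ in atTop, ∀ (m : ℕ) (z : Fin d → ℤ), m ≤ n ^ A →
      (∀ k, |z k| ≤ (n : ℤ) ^ A) →
      1 - Real.exp (-(n : ℝ) ^ c) ≤ polymer β h (fun i y => ω (m + i) (z + y) x) n
        {w | ∀ i j : ℕ, i ≤ j → j ≤ n →
          incr v w i j ≤ (n : ℝ) ^ b * Real.sqrt ((j : ℝ) - i)}) :
    2 * wander P ω β h v - 1 ≤ chiUp P ω β h := by
  apply scaling hc hd he hexp
  intro ξ hξ0 hξ1 hξ b c hb hb1 hcb
  filter_upwards [H ξ hξ0 hξ1 hξ 0 (b - 1 / 2) c (by linarith) (by linarith)] with x hx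
  filter_upwards [hx, eventually_ge_atTop 1] with n hn hn1
  have hnp : (0 : ℝ) < n := by exact_mod_cast hn1
  have h1 := hn 0 0 (Nat.zero_le _) (by intro k; simp)
  simp only [zero_add] at h1
  refine h1.trans (polymer_mono _ _ _ ?_)
  intro w hw i hi
  have h2 := hw 0 i (Nat.zero_le _) hi
  rw [incr_zero, Nat.cast_zero, sub_zero] at h2
  refine h2.trans ?_
  have h3 : Real.sqrt (i : ℝ) ≤ Real.sqrt n := Real.sqrt_le_sqrt (by exact_mod_cast hi)
  calc (n : ℝ) ^ (b - 1 / 2) * Real.sqrt i ≤ (n : ℝ) ^ (b - 1 / 2) * Real.sqrt n :=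
        mul_le_mul_of_nonneg_left h3 (Real.rpow_nonneg hnp.le _)
    _ = (n : ℝ) ^ b := by
        rw [Real.sqrt_eq_rpow, ← Real.rpow_add hnp]
        congr 1
        ring

/-- from the confinement of increments to their moments -/
lemma moments (hd : 1 ≤ d) {β : ℝ} {h v : Fin d → ℝ} {b1 b : ℝ} (hb1 : 0 < b1) (hb : b1 < b)
    {p : ℕ} (hp : 1 ≤ p) :
    ∀ᶠ n : ℕ in atTop, ∀ η : ℕ → (Fin d → ℤ) → ℝ,
      1 - Real.exp (-(n : ℝ) ^ b1) ≤ polymer β h η n {w | ∀ i j : ℕ, i ≤ j → j ≤ n →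
          incr v w i j ≤ (n : ℝ) ^ b1 * Real.sqrt ((j : ℝ) - i)} →
      ∀ i j : ℕ, i ≤ j → j ≤ n →
        mean β h η (fun w : Fin n → Step d => incr v w i j ^ p) ≤
          ((n : ℝ) ^ b * Real.sqrt ((j : ℝ) - i)) ^ p := by
  have hK0 : 0 ≤ ∑ k, |v k| := Finset.sum_nonneg fun _ _ => abs_nonneg _
  have hlim := (summ2 p ((d * (1 + ∑ k, |v k|)) ^ p) 1 b1 one_pos hb1).tendsto_atTop_zero
  have hp0 : (0 : ℝ) < p := by exact_mod_cast hp
  filter_upwards [hlim.eventually (gt_mem_nhds one_pos),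
    Pool.Agent.N700.SE.UPD.ev_pow 2 (b1 * p) (b * p) (mul_lt_mul_of_pos_right hb hp0),
    eventually_ge_atTop 1] with n e1 e2 hn1 η hη i j hij hj
  have hn' : (1 : ℝ) ≤ n := by exact_mod_cast hn1
  have hnp : (0 : ℝ) < n := by linarith
  have hji : (0 : ℝ) ≤ (j : ℝ) - i := by
    have : (i : ℝ) ≤ j := by exact_mod_cast hij
    linarith
  have hjn : (j : ℝ) - i ≤ n := by
    have h1 : (j : ℝ) ≤ n := by exact_mod_cast hj
    have h2 : (0 : ℝ) ≤ i := Nat.cast_nonneg i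
    linarith
  have hs0 : 0 ≤ Real.sqrt ((j : ℝ) - i) := Real.sqrt_nonneg _
  have hsq : Real.sqrt ((j : ℝ) - i) * Real.sqrt ((j : ℝ) - i) = (j : ℝ) - i :=
    Real.mul_self_sqrt hji
  have hsn : Real.sqrt ((j : ℝ) - i) ≤ n := by
    apply Real.sqrt_le_iff.2
    refine ⟨hnp.le, hjn.trans ?_⟩
    nlinarith
  have hnb : 0 ≤ (n : ℝ) ^ b1 := Real.rpow_nonneg hnp.le _
  set s : ℝ := Real.sqrt ((j : ℝ) - i) with hs
  set D : ℝ := d * (1 + ∑ k, |v k|) with hD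
  have hD0 : 0 ≤ D := by positivity
  have h3 := mean_le hd (f := fun w : Fin n → Step d => incr v w i j ^ p)
    (r := ((n : ℝ) ^ b1 * s) ^ p) (R := (D * n * s) ^ p) (by positivity) (by positivity) hη
    (fun w hw => pow_le_pow_left₀ (incr_nonneg _ _ _ _) (hw i j hij hj) p)
    (fun w => by
      apply pow_le_pow_left₀ (incr_nonneg _ _ _ _)
      refine (incr_le_max v w hij).trans ?_
      calc (d : ℝ) * ((1 + ∑ k, |v k|) * ((j : ℝ) - i)) = D * (s * s) := by rw [hsq]; ring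
        _ ≤ D * (n * s) := by
            apply mul_le_mul_of_nonneg_left _ hD0
            exact mul_le_mul_of_nonneg_right hsn hs0
        _ = D * n * s := by ring)
  refine h3.trans ?_
  have h4 : Real.exp (-(n : ℝ) ^ b1) * (D * n) ^ p ≤ 1 := by
    have h5 : D ^ p * (n : ℝ) ^ p * Real.exp (-(1 * (n : ℝ) ^ b1)) < 1 := e1
    rw [one_mul, ← mul_pow] at h5
    linarith
  have h6 : (1 : ℝ) ≤ ((n : ℝ) ^ b1) ^ p := one_le_pow₀ (Real.one_le_rpow hn' hb1.le)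
  have h7 : 2 * ((n : ℝ) ^ b1) ^ p ≤ ((n : ℝ) ^ b) ^ p := by
    rw [← Real.rpow_natCast, ← Real.rpow_natCast, ← Real.rpow_mul hnp.le,
      ← Real.rpow_mul hnp.le]
    exact e2
  have hsp : 0 ≤ s ^ p := by positivity
  calc ((n : ℝ) ^ b1 * s) ^ p + Real.exp (-(n : ℝ) ^ b1) * (D * n * s) ^ p =
        (((n : ℝ) ^ b1) ^ p + Real.exp (-(n : ℝ) ^ b1) * (D * n) ^ p) * s ^ p := by
        rw [mul_pow, mul_pow (D * n) s p]
        ring
    _ ≤ (((n : ℝ) ^ b1) ^ p + ((n : ℝ) ^ b1) ^ p) * s ^ p := by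
        apply mul_le_mul_of_nonneg_right _ hsp
        linarith
    _ = (2 * ((n : ℝ) ^ b1) ^ p) * s ^ p := by ring
    _ ≤ ((n : ℝ) ^ b) ^ p * s ^ p := mul_le_mul_of_nonneg_right h7 hsp
    _ = ((n : ℝ) ^ b * s) ^ p := (mul_pow _ _ _).symm

theorem final (mgf : S_MGF) (hd : 1 ≤ d) {Ω : Type} [MeasurableSpace Ω] (P : Measure Ω)
    [IsProbabilityMeasure P] (ω : ℕ → (Fin d → ℤ) → Ω → ℝ) (he : IsEnv P ω)
    (hexp : ∀ b : ℝ, Integrable (fun x => Real.exp (b * ω 1 0 x)) P) (β : ℝ) :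
    ∀ᵐ h : Fin d → ℝ, ∃ v : Fin d → ℝ,
      chiUp P ω β h ≤ 1 / 2 ∧ 2 * wander P ω β h v - 1 ≤ chiUp P ω β h ∧
      (∀ (A : ℕ) (b c : ℝ), chiUp P ω β h / 2 < b → c < 2 * b →
        ∀ᵐ x ∂P, ∀ᶠ n : ℕ in atTop, ∀ (m : ℕ) (z : Fin d → ℤ), m ≤ n ^ A →
          (∀ k, |z k| ≤ (n : ℤ) ^ A) →
          1 - Real.exp (-(n : ℝ) ^ c) ≤ polymer β h (fun i y => ω (m + i) (z + y) x) n
            {w | ∀ i j : ℕ, i ≤ j → j ≤ n →
              incr v w i j ≤ (n : ℝ) ^ b * Real.sqrt ((j : ℝ) - i)}) ∧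
      ∀ (A p : ℕ) (b : ℝ), 1 ≤ p → chiUp P ω β h / 2 < b →
        ∀ᵐ x ∂P, ∀ᶠ n : ℕ in atTop, ∀ (m : ℕ) (z : Fin d → ℤ), m ≤ n ^ A →
          (∀ k, |z k| ≤ (n : ℤ) ^ A) → ∀ i j : ℕ, i ≤ j → j ≤ n →
          mean β h (fun i y => ω (m + i) (z + y) x)
            (fun w : Fin n → Step d => incr v w i j ^ p) ≤
            ((n : ℝ) ^ b * Real.sqrt ((j : ℝ) - i)) ^ p := by
  have hc : S_CONC := Pool.Agent.N523.SE.CONC.main mgf
  have hs : S_SUP := Pool.Agent.N50.SE.SUP.main hc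
  have hv : S_CVX := Pool.Agent.N50.SE.CVX.main hc
  have hdb : S_DBL := Pool.Agent.N97.SE.DBL.main hc
  have hr : S_RATE := Pool.Agent.N353.SE.Rate.main hs hdb hv
  have hi : S_ID := Pool.Agent.N951.SE.t
  have hdx : S_DBLX := Pool.Agent.N803.SE.DBLX.main hc hi
  have hrx : S_RATEX := Pool.Agent.N316.SE.Ratex.main hr hdx
  filter_upwards [core hc hi hrx Pool.Agent.N281.SE.curv hd P ω he hexp β] with h hh
  obtain ⟨v, hv⟩ := hh
  have hle := chiUp_le_half hc hd he hexp β h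
  have H : ∀ ξ : ℝ, 0 < ξ → ξ < 1 → Concentrated P ω β h ξ → ∀ (A : ℕ) (b c : ℝ), ξ / 2 < b →
      c < 2 * b → ∀ᵐ x ∂P, ∀ᶠ n : ℕ in atTop, ∀ (m : ℕ) (z : Fin d → ℤ), m ≤ n ^ A →
      (∀ k, |z k| ≤ (n : ℤ) ^ A) →
      1 - Real.exp (-(n : ℝ) ^ c) ≤ polymer β h (fun i y => ω (m + i) (z + y) x) n
        {w | ∀ i j : ℕ, i ≤ j → j ≤ n →
          incr v w i j ≤ (n : ℝ) ^ b * Real.sqrt ((j : ℝ) - i)} := by
    intro ξ hξ0 hξ1 hξ A b c hb hcb
    rw [concentrated_iff hd fun h n => (hc d hd Ω P ω he hexp β h 0 0 n).2.1] at hξ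
    obtain ⟨U, hU, hhU, α, C0, hα, hC⟩ := hξ
    filter_upwards [hv U hU hhU ξ α C0 hξ0 hξ1 hα hC A b c hb hcb] with x hx
    filter_upwards [hx] with n hn m z hm hz
    rw [polymer_eq]
    exact hn m z hm hz
  have H2 : ∀ (A : ℕ) (b c : ℝ), chiUp P ω β h / 2 < b → c < 2 * b →
      ∀ᵐ x ∂P, ∀ᶠ n : ℕ in atTop, ∀ (m : ℕ) (z : Fin d → ℤ), m ≤ n ^ A →
        (∀ k, |z k| ≤ (n : ℤ) ^ A) →
        1 - Real.exp (-(n : ℝ) ^ c) ≤ polymer β h (fun i y => ω (m + i) (z + y) x) n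
          {w | ∀ i j : ℕ, i ≤ j → j ≤ n →
            incr v w i j ≤ (n : ℝ) ^ b * Real.sqrt ((j : ℝ) - i)} := by
    intro A b c hb hcb
    have h1 : chiUp P ω β h < min (2 * b) 1 := lt_min (by linarith) (by linarith)
    obtain ⟨ξ, ⟨hξ0, hξ⟩, hξ1⟩ := exists_lt_of_csInf_lt
      (s := {ξ : ℝ | 0 < ξ ∧ Concentrated P ω β h ξ})
      ⟨1 / 2, by norm_num, concentrated_half hc hd he hexp β h⟩ h1
    have h2 := lt_min_iff.1 hξ1
    exact H ξ hξ0 h2.2 hξ A b c (by linarith) hcb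
  refine ⟨v, hle, scal hc hd he hexp H, H2, ?_⟩
  intro A p b hp hb
  obtain ⟨b1, hb1, hb2⟩ := exists_between hb
  have h0 : 0 ≤ chiUp P ω β h := Real.sInf_nonneg fun ξ hξ => hξ.1.le
  have hb10 : 0 < b1 := by linarith
  filter_upwards [H2 A b1 b1 hb1 (by linarith)] with x hx
  filter_upwards [hx, moments hd (β := β) (h := h) (v := v) hb10 hb2 hp] with n hn hm m z hmA hz
  exact hm _ (hn m z hmA hz)

end Pool.Agent.Run7.H986.PM
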