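import Pool.Agent.N662.SE.Exp2
import Pool.Agent.Run7.h986.PM.Det

/-!
# Mesoscopic confinement of directed polymers: the almost sure statement (helper986)

The scheme is that of the starting module `Pool.Agent.N427.SE.UPX`.
-/

set_option autoImplicit false

open MeasureTheory ProbabilityTheory Filter Topology

namespace Pool.Agent.Run7.H986.PM

open TH967.DP (Step pos energy)
open Pool.Agent.N662.SE
open Pool.Agent.N700.SE.UPD hiding part_univ_pos

variable {d : ℕ}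

/-- The Euclidean norm of `(S_j - S_i) - (j - i) v`. -/
noncomputable def incr (v : Fin d → ℝ) {n : ℕ} (w : Fin n → Step d) (i j : ℕ) : ℝ :=
  Real.sqrt (∑ k, (((pos w j k : ℝ) - pos w i k) - ((j : ℝ) - i) * v k) ^ 2)

lemma incr_nonneg (v : Fin d → ℝ) {n : ℕ} (w : Fin n → Step d) (i j : ℕ) : 0 ≤ incr v w i j :=
  Real.sqrt_nonneg _

lemma incr_le_of {v : Fin d → ℝ} {n : ℕ} {w : Fin n → Step d} {i j : ℕ} {r : ℝ} (hr : 0 ≤ r)
    (h : ∀ k, |((pos w j k : ℝ) - pos w i k) - ((j : ℝ) - i) * v k| ≤ r) :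
    incr v w i j ≤ d * r := by
  unfold incr
  apply Real.sqrt_le_iff.2
  refine ⟨by positivity, ?_⟩
  have h1 := Finset.sum_sq_le_sq_sum_of_nonneg (s := Finset.univ)
    (f := fun k => |((pos w j k : ℝ) - pos w i k) - ((j : ℝ) - i) * v k|)
    (fun _ _ => abs_nonneg _)
  simp only [sq_abs] at h1
  refine h1.trans ?_
  apply pow_le_pow_left₀ (Finset.sum_nonneg (fun _ _ => abs_nonneg _))
  calc ∑ k, |((pos w j k : ℝ) - pos w i k) - ((j : ℝ) - i) * v k| ≤ ∑ _k : Fin d, r :=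
        Finset.sum_le_sum fun k _ => h k
    _ = d * r := by simp

lemma incr_le_max (v : Fin d → ℝ) {n : ℕ} (w : Fin n → Step d) {i j : ℕ} (hij : i ≤ j) :
    incr v w i j ≤ d * ((1 + ∑ k, |v k|) * ((j : ℝ) - i)) := by
  have hji : (0 : ℝ) ≤ (j : ℝ) - i := by
    have : (i : ℝ) ≤ j := by exact_mod_cast hij
    linarith
  have hs : 0 ≤ ∑ k, |v k| := Finset.sum_nonneg fun _ _ => abs_nonneg _
  apply incr_le_of (by positivity)
  intro k
  have h1 := abs_incr_le w hij k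
  have h2 : |v k| ≤ ∑ k, |v k| :=
    Finset.single_le_sum (f := fun k => |v k|) (fun _ _ => abs_nonneg _) (Finset.mem_univ k)
  calc |((pos w j k : ℝ) - pos w i k) - ((j : ℝ) - i) * v k| ≤
        |((pos w j k : ℝ) - pos w i k)| + |((j : ℝ) - i) * v k| := abs_sub _ _
    _ ≤ ((j : ℝ) - i) + ((j : ℝ) - i) * |v k| := by
        rw [abs_mul, abs_of_nonneg hji]
        linarith
    _ ≤ ((j : ℝ) - i) + ((j : ℝ) - i) * ∑ k, |v k| := by
        have := mul_le_mul_of_nonneg_left h2 hji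
        linarith
    _ = (1 + ∑ k, |v k|) * ((j : ℝ) - i) := by ring

/-- Borel-Cantelli for polynomially many events of stretched exponentially small probability -/
lemma ae_union {ι : Type} {Ω : Type} [MeasurableSpace Ω] (P : Measure Ω)
    (T : ℕ → Finset ι) (B : ℕ → ι → Set Ω) (M : ℕ) (D D' α ε : ℝ) (hα : 0 < α) (hε : 0 < ε)
    (hT : ∀ n : ℕ, 1 ≤ n → ((T n).card : ℝ) ≤ D * (n : ℝ) ^ M)
    (hB : ∀ n : ℕ, 1 ≤ n → ∀ t ∈ T n, P (B n t) ≤
      ENNReal.ofReal (|D'| * Real.exp (-(α * (n : ℝ) ^ ε)))) :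
    ∀ᵐ x ∂P, ∀ᶠ n : ℕ in atTop, ∀ t ∈ T n, x ∉ B n t := by
  classical
  have hS : ∀ n, P (if 1 ≤ n then ⋃ t ∈ T n, B n t else ∅) ≤ ENNReal.ofReal (D * |D'| *
      (n : ℝ) ^ M * Real.exp (-(α * (n : ℝ) ^ ε))) := by
    intro n
    by_cases hn : 1 ≤ n
    · rw [if_pos hn]
      have b1 : P (⋃ t ∈ T n, B n t) ≤
          (T n).card • ENNReal.ofReal (|D'| * Real.exp (-(α * (n : ℝ) ^ ε))) :=
        (measure_biUnion_finset_le _ _).trans (Finset.sum_le_card_nsmul _ _ _ (hB n hn))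
      refine b1.trans ?_
      rw [nsmul_eq_mul, ← ENNReal.ofReal_natCast, ← ENNReal.ofReal_mul (Nat.cast_nonneg _)]
      apply ENNReal.ofReal_le_ofReal
      calc ((T n).card : ℝ) * (|D'| * Real.exp (-(α * (n : ℝ) ^ ε))) ≤
            (D * (n : ℝ) ^ M) * (|D'| * Real.exp (-(α * (n : ℝ) ^ ε))) :=
            mul_le_mul_of_nonneg_right (hT n hn) (by positivity)
        _ = _ := by ring
    · rw [if_neg hn, measure_empty]
      exact zero_le
  have hfin : ∑' n, P (if 1 ≤ n then ⋃ t ∈ T n, B n t else ∅) ≠ ⊤ := by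
    refine ne_top_of_le_ne_top ?_ (ENNReal.tsum_le_tsum hS)
    exact (summ2 M (D * |D'|) α ε hα hε).tsum_ofReal_ne_top
  filter_upwards [ae_eventually_notMem hfin] with x hx
  filter_upwards [hx, eventually_ge_atTop 1] with n hxn hn1 t ht hxt
  rw [if_pos hn1] at hxn
  exact hxn (Set.mem_iUnion₂.2 ⟨t, ht, hxt⟩)

lemma card_le (d A n : ℕ) (hn : 1 ≤ n) :
    (((n ^ A + n + 1) * ((2 * (n ^ A + n) + 1) ^ d * ((n + 1) * ((n + 1) * (d * 2)))) : ℕ) : ℝ) ≤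
      (24 * d * 5 ^ d) * (n : ℝ) ^ ((A + 1) * (d + 3)) := by
  have hn' : (1 : ℝ) ≤ n := by exact_mod_cast hn
  have e2 : (n : ℝ) ^ ((A + 1) * (d + 3)) = ((n : ℝ) ^ (A + 1)) ^ (d + 3) := by rw [pow_mul]
  rw [e2]
  have hq1 : 1 ≤ (n : ℝ) ^ (A + 1) := one_le_pow₀ hn'
  have hnq : (n : ℝ) ≤ (n : ℝ) ^ (A + 1) := by
    calc (n : ℝ) = (n : ℝ) ^ 1 := (pow_one _).symm
      _ ≤ _ := pow_le_pow_right₀ hn' (by omega)
  have hnA : (n : ℝ) ^ A ≤ (n : ℝ) ^ (A + 1) := pow_le_pow_right₀ hn' (by omega)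
  have hnA0 : 0 ≤ (n : ℝ) ^ A := by positivity
  push_cast
  generalize (n : ℝ) ^ (A + 1) = q at *
  generalize (n : ℝ) ^ A = p at *
  have a1 : p + (n : ℝ) + 1 ≤ 3 * q := by linarith
  have a2 : (2 * (p + (n : ℝ)) + 1) ^ d ≤ (5 * q) ^ d :=
    pow_le_pow_left₀ (by positivity) (by linarith) d
  have a3 : (n : ℝ) + 1 ≤ 2 * q := by linarith
  have a4 : ((n : ℝ) + 1) * ((d : ℝ) * 2) ≤ (2 * q) * ((d : ℝ) * 2) :=
    mul_le_mul_of_nonneg_right a3 (by positivity)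
  have a5 : ((n : ℝ) + 1) * (((n : ℝ) + 1) * ((d : ℝ) * 2)) ≤
      (2 * q) * ((2 * q) * ((d : ℝ) * 2)) :=
    mul_le_mul a3 a4 (by positivity) (by positivity)
  have a6 : (2 * (p + (n : ℝ)) + 1) ^ d * (((n : ℝ) + 1) * (((n : ℝ) + 1) * ((d : ℝ) * 2))) ≤
      (5 * q) ^ d * ((2 * q) * ((2 * q) * ((d : ℝ) * 2))) :=
    mul_le_mul a2 a5 (by positivity) (by positivity)
  calc (p + (n : ℝ) + 1) * ((2 * (p + (n : ℝ)) + 1) ^ d * (((n : ℝ) + 1) * (((n : ℝ) + 1) *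
        ((d : ℝ) * 2)))) ≤ (3 * q) * ((5 * q) ^ d * ((2 * q) * ((2 * q) * ((d : ℝ) * 2)))) :=
        mul_le_mul a1 a6 (by positivity) (by positivity)
    _ = (24 * d * 5 ^ d) * q ^ (d + 3) := by
        rw [mul_pow]
        ring

lemma card_box (d L : ℕ) :
    (Finset.Icc (fun _ : Fin d => -(L : ℤ)) (fun _ => (L : ℤ))).card = (2 * L + 1) ^ d := by
  rw [Pi.card_Icc]
  simp only [Int.card_Icc, Finset.prod_const, Finset.card_univ, Fintype.card_fin]
  congr 1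
  omega

/-- all the free energies in a polynomially large space-time region are close to their means -/
lemma tests (hc : S_CONC) (hi : S_ID) {d : ℕ} (hd : 1 ≤ d)
    {Ω : Type} [MeasurableSpace Ω] (P : Measure Ω) [IsProbabilityMeasure P]
    (ω : ℕ → (Fin d → ℤ) → Ω → ℝ) (hω : IsEnv P ω)
    (hexp : ∀ b : ℝ, Integrable (fun x => Real.exp (b * ω 1 0 x)) P) (β : ℝ)
    {U : Set (Fin d → ℝ)} {ξ α C0 : ℝ} (hξ : 0 < ξ) (hα : 0 < α) (hU : Conc P ω β U ξ α C0)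
    (c1 : ℝ) (hc1 : ξ < c1) (A : ℕ) (g : ℕ → ℕ → Fin d → Bool → (Fin d → ℝ))
    (hg : ∀ n l k t, g n l k t ∈ U) :
    ∀ᵐ x ∂P, ∀ᶠ n : ℕ in atTop, ∀ (m' : ℕ) (z' : Fin d → ℤ) (j l : ℕ) (k : Fin d) (t : Bool),
      m' ≤ n ^ A + n → (∀ q, |z' q| ≤ ((n ^ A + n : ℕ) : ℤ)) → j ≤ n → l ≤ n →
      |lw ω β (g n l k t) m' z' j x - free P ω β (g n l k t) j| < (n : ℝ) ^ c1 := by
  have h0 := ae_union P
    (fun n => Finset.range (n ^ A + n + 1) ×ˢ
      (Finset.Icc (fun _ : Fin d => -((n ^ A + n : ℕ) : ℤ)) (fun _ => ((n ^ A + n : ℕ) : ℤ))) ×ˢ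
      Finset.range (n + 1) ×ˢ Finset.range (n + 1) ×ˢ (Finset.univ : Finset (Fin d × Bool)))
    (fun n t => {x | (n : ℝ) ^ c1 ≤
      |lw ω β (g n t.2.2.2.1 t.2.2.2.2.1 t.2.2.2.2.2) t.1 t.2.1 t.2.2.1 x -
        free P ω β (g n t.2.2.2.1 t.2.2.2.2.1 t.2.2.2.2.2) t.2.2.1|})
    ((A + 1) * (d + 3)) (24 * d * 5 ^ d) C0 α (c1 - ξ) hα (by linarith)
    (by
      intro n hn
      refine le_trans (le_of_eq ?_) (card_le d A n hn)
      rw [Finset.card_product, Finset.card_product, Finset.card_product, Finset.card_product,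
        Finset.card_range, Finset.card_range, card_box, Finset.card_univ,
        Fintype.card_prod, Fintype.card_fin, Fintype.card_bool])
    (by
      intro n hn t ht
      have ht1 : t.2.2.1 < n + 1 := Finset.mem_range.1 (Finset.mem_product.1
        (Finset.mem_product.1 (Finset.mem_product.1 ht).2).2).1
      exact Pool.Agent.N427.SE.UPX.testX hc hi hd P ω hω hexp β hξ hα hU c1 n hn _
        (hg n _ _ _) _ _ _ (Nat.lt_succ_iff.1 ht1))
  filter_upwards [h0] with x hx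
  filter_upwards [hx] with n hn m' z' j l k t hm' hz' hj hl
  by_contra hcon
  push Not at hcon
  refine hn (m', z', j, l, k, t) ?_ hcon
  refine Finset.mem_product.2 ⟨Finset.mem_range.2 (Nat.lt_succ_iff.2 hm'), ?_⟩
  refine Finset.mem_product.2 ⟨?_, ?_⟩
  · rw [Finset.mem_Icc]
    exact ⟨fun j => (abs_le.1 (hz' j)).1, fun j => (abs_le.1 (hz' j)).2⟩
  refine Finset.mem_product.2 ⟨Finset.mem_range.2 (Nat.lt_succ_iff.2 hj), ?_⟩
  exact Finset.mem_product.2 ⟨Finset.mem_range.2 (Nat.lt_succ_iff.2 hl), Finset.mem_univ _⟩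

end Pool.Agent.Run7.H986.PM
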